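import Pool.Agent.Run7.h619.AA.Main
import Pool.Agent.Run7.h619.PR.All2

/-!
# `Ω`-stable skew products over Anosov diffeomorphisms satisfy Axiom A (class `C^∞`)

`V n = ℝⁿ`, `DiffM n N ⊤ = Diff^∞(N)` with its `C^∞` topology `strongTop`
(`Pool/Agent/H718R2/G0.lean`); `OmegaStable`, `Omega F = Ω(F)`, `Per F`
(`Pool/Agent/TH80/OMS/Defs.lean`, `SymDefs.lean`).

In `Pool/Agent/Run7/h619/AA/Defs.lean`:
* `dv`, `IsClosedSub`, `IsContTan`, `IsNormOn`, `Contr`, `IsSplitting`, `IsHyperbolic F K`: the closed set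
  `K`, `F(K) = K`, is hyperbolic for `F` (continuous invariant splitting of the tangent bundle over `K`,
  exponential estimates); `AxA F`: `Ω(F)` is hyperbolic and the periodic points are dense in it;
  `Anosov F`: the whole manifold is hyperbolic;
* `PDiff k b n M B N`: the `C^∞` diffeomorphisms `Θ : M × B → N`; `Θ.pt x y = Θ(x, y)`;
* `IsActSkew Θ φ h c F`: `F(Θ(x, y)) = Θ(φ_(c(y))(x), h(y))`, where `φ` is a `C^∞` action of `ℝ^d` on `M`
  (`IsAction`) and `c : B → ℝ^d` is continuous;
* `TransChain`: chain transitivity (every transitive diffeomorphism is chain transitive).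
-/

set_option autoImplicit false

open scoped Manifold ContDiff Topology

universe u v w

namespace Pool.Agent.Results.MP_28932f_an.AxiomAOverAnosov

open Pool.Agent.H718R2.G Pool.Agent.TH80.OMS Run7.h619.AA

/-- Let `M`, `B`, `N` be closed manifolds, `B` infinite, `Θ : M × B → N` a `C^∞` diffeomorphism,
and let `h ∈ Diff^∞(B)` be a chain transitive Anosov diffeomorphism. Let `F ∈ Diff^∞(N)` be a skew
product `F(Θ(x, y)) = Θ(φ_(c(y))(x), h(y))`, where `φ` is a `C^∞` action of `ℝ^d` on `M` and `c : B → ℝ^d` is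
continuous.

If `F` is `Ω`-stable in the `C^∞` topology, then `F` satisfies Axiom A, the action `φ` has only finitely many
fixed points, and `Ω(F)` is the set of the points `Θ(x, y)` with `x` fixed by `φ`. -/
theorem result {d k b n : ℕ} {M : Type v} {B : Type w} {N : Type u} [TopologicalSpace M] [T2Space M]
    [CompactSpace M] [ChartedSpace (V k) M] [IsManifold (𝓡 k) ∞ M] [MetricSpace B] [CompactSpace B]
    [ChartedSpace (V b) B] [IsManifold (𝓡 b) ∞ B] [TopologicalSpace N] [T2Space N] [CompactSpace N]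
    [ChartedSpace (V n) N] [IsManifold (𝓡 n) ∞ N] [Infinite B]
    (Θ : PDiff k b n M B N) (φ : V d → M → M) (h : DiffM b B ⊤) (c : B → V d) (F : DiffM n N ⊤)
    (H : IsActSkew Θ φ h c F) (hh : Anosov h) (hT : TransChain h)
    (hF : OmegaStable n N ⊤ F) :
    AxA F ∧ {x | ∀ s, φ s x = x}.Finite ∧ ∀ x y, Θ.pt x y ∈ Omega F ↔ ∀ s, φ s x = x :=
  axA_of_stable le_top hF H hh (Run7.h619.PR.anosov_shadow le_top hh) hT

end Pool.Agent.Results.MP_28932f_an.AxiomAOverAnosov
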