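import Pool.Agent.Run7.h619.OM.StmA

/-!
# `Ω`-stable skew products over maps with shadowing: the periodic points are dense (class `C^∞`)

`V n = ℝⁿ`, `DiffM n N ⊤ = Diff^∞(N)` with its `C^∞` topology `strongTop`
(`Pool/Agent/H718R2/G0.lean`); `OmegaStable`, `Omega F = Ω(F)`, `Per F`
(`Pool/Agent/TH80/OMS/Defs.lean`, `SymDefs.lean`).

In `Pool/Agent/Run7/h619/SK` (`Defs.lean`, `Flex.lean`) and `Pool/Agent/W564/SC/Defs.lean`:
* `IsAct d n N ⊤ ψ`: a `C^∞` action `ψ` of `ℝ^d` on `N`;
* `IsSkew F Θ ψ φ f h c`: `F` is on `Θ(X × Y)` the skew product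
  `skew φ f h c : (x, y) ↦ (φ_(c(y)) f(x), h(y))`, where `φ` is the restriction of `ψ` to the fibres
  `Θ(X × {y})`, `c` is continuous, and `f` is continuous and commutes with `φ`;
* `ChainTrans`, `PerShadow`: chain transitivity, periodic shadowing property (both hold for transitive
  Anosov diffeomorphisms).
-/

set_option autoImplicit false

open scoped Manifold ContDiff Topology

universe u v w

namespace Pool.Agent.Results.MP_28932f_an.DensePeriodicPoints

open Pool.Agent.H718R2.G Pool.Agent.W564.SC Pool.Agent.TH80.OMS Run7.h619.SK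

/-- Let `N` be a closed manifold, and let `F ∈ Diff^∞(N)` be, for a homeomorphism `Θ : X × Y → N` (`X`, `Y`
compact metric spaces, `Y` infinite), a skew product `F(Θ(x, y)) = Θ(φ_(c(y)) f(x), h(y))` over a chain
transitive homeomorphism `h` of `Y` with the periodic shadowing property; here `φ` is an action of `ℝ^d` on
`X` which comes from a `C^∞` action on `N`, `c : Y → ℝ^d` is continuous, and the continuous map `f` commutes
with `φ` (for instance `F = f × h`, `f` arbitrary).

If `F` is `Ω`-stable in the `C^∞` topology, then `Ω(F)` is the closure of the set of the periodic points of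
`F`, and it is a union of sets `Θ({x} × Y)`. -/
theorem result {n : ℕ} {N : Type u} [TopologicalSpace N] [T2Space N] [CompactSpace N]
    [ChartedSpace (V n) N] [IsManifold (𝓡 n) ∞ N] (F : DiffM n N ⊤) (hF : OmegaStable n N ⊤ F)
    {d : ℕ} {X : Type v} {Y : Type w} [MetricSpace X] [CompactSpace X] [MetricSpace Y]
    [CompactSpace Y] [Infinite Y] (Θ : X × Y → N) (ψ : V d → N → N) (φ : V d → X → X) (f : X → X)
    (h : Y ≃ₜ Y) (c : Y → V d) (H : IsSkew F Θ ψ φ f h c) (hΘ : Function.Surjective Θ)
    (hs : PerShadow h) (hT : ChainTrans h) :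
    Omega F = closure (Per F) ∧ ∀ x y y', Θ (x, y) ∈ Omega F → Θ (x, y') ∈ Omega F :=
  (skew_concl le_top hF H H.act hs hT).omega hΘ

end Pool.Agent.Results.MP_28932f_an.DensePeriodicPoints
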