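import Pool.Agent.Run7.h619.PR.All2
import Pool.Agent.Run7.h619.PR.DefsP

/-!
# `Ω`-stable products `f × g`, `f` arbitrary, `g` Anosov, satisfy Axiom A (class `C^∞`)

`V n = ℝⁿ`, `DiffM n N ⊤ = Diff^∞(N)` with its `C^∞` topology `strongTop`
(`Pool/Agent/H718R2/G0.lean`); `OmegaStable`, `Omega F = Ω(F)`, `Per F`
(`Pool/Agent/TH80/OMS/Defs.lean`, `SymDefs.lean`).

In `Pool/Agent/Run7/h619/AA/Defs.lean`:
* `dv`, `IsClosedSub`, `IsContTan`, `IsNormOn`, `Contr`, `IsSplitting`, `IsHyperbolic F K`: the closed set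
  `K`, `F(K) = K`, is hyperbolic for `F` (continuous invariant splitting of the tangent bundle over `K`,
  exponential estimates); `AxA F`: `Ω(F)` is hyperbolic and the periodic points are dense in it;
  `Anosov F`: the whole manifold is hyperbolic;
* `PDiff k b n M B N`: the `C^∞` diffeomorphisms `Θ : M × B → N`; `Θ.pt x y = Θ(x, y)`;
* `TransChain`: chain transitivity (every transitive diffeomorphism is chain transitive).

In `Pool/Agent/Run7/h619/AU/Defs.lean`: `fwd F`: the map `F`.

In `Pool/Agent/Run7/h619/PR/DefsP.lean`: `IsProd Θ f g F`: `F(Θ(x, y)) = Θ(f(x), g(y))`; `PerHyp f`: the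
closure of the set of the periodic points of `f` is hyperbolic; `OmegaIs Θ f F`: `Ω(F)` is the set of the
points `Θ(x, y)` with `x` in this closure.
-/

set_option autoImplicit false

open scoped Manifold ContDiff Topology

universe u v w

namespace Pool.Agent.Results.MP_28932f_an.ProductsWithAnosov

open Pool.Agent.H718R2.G Pool.Agent.TH80.OMS Run7.h619.AA Run7.h619.AU Run7.h619.PR

/-- Let `M`, `B`, `N` be closed manifolds, `B` infinite, `Θ : M × B → N` a `C^∞` diffeomorphism,
`f` an arbitrary `C^∞` diffeomorphism of `M`, and let `g` be a chain transitive Anosov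
diffeomorphism of `B` of class `C^∞`. Let `F` be the product `F(Θ(x, y)) = Θ(f(x), g(y))`.

If `F` is `Ω`-stable in the `C^∞` topology, then `F` satisfies Axiom A, the closure `K` of the set of the periodic
points of `f` is a hyperbolic set of `f`, and `Ω(F) = Θ(K × B)`. -/
theorem result {k b n : ℕ} {M : Type v} {B : Type w} {N : Type u} [TopologicalSpace M] [T2Space M]
    [CompactSpace M] [ChartedSpace (V k) M] [IsManifold (𝓡 k) ∞ M] [MetricSpace B] [CompactSpace B]
    [ChartedSpace (V b) B] [IsManifold (𝓡 b) ∞ B] [TopologicalSpace N] [T2Space N] [CompactSpace N]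
    [ChartedSpace (V n) N] [IsManifold (𝓡 n) ∞ N] [Infinite B]
    (Θ : PDiff k b n M B N) (f : DiffM k M ⊤) (g : DiffM b B ⊤) (F : DiffM n N ⊤)
    (H : IsProd Θ (fwd f) (fwd g) (fwd F)) (hg : Anosov g) (hT : TransChain (fwd g))
    (hF : OmegaStable n N ⊤ F) : AxA F ∧ PerHyp f ∧ OmegaIs Θ (fwd f) (fwd F) := by
  obtain ⟨h1, h2, h3⟩ := axA_prod_anosov le_top H hg hT hF
  refine ⟨h1, h2, fun x y => ?_⟩
  show Θ.pt x y ∈ Omega F ↔ x ∈ closure (Per f)
  rw [h3]
  constructor
  · rintro ⟨x', hx', y', h⟩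
    have h4 : (x, y) = (x', y') := Θ.injective h
    rw [show x = x' from congrArg Prod.fst h4]
    exact hx'
  · exact fun hx => ⟨x, hx, y, rfl⟩

end Pool.Agent.Results.MP_28932f_an.ProductsWithAnosov
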